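import Pool.Agent.P.MP_dc233e_lc.Cn.E

/-!
Autostable countably categorical graphs whose expansion by one constant has dimension `n`.
-/

namespace Pool.Agent.Results.MP_dc233e_lc.ConstDim

open Pool.Agent.P.MP_dc233e_lc.Dg Pool.Agent.P.MP_dc233e_lc.Cn

/-- For every `n ≥ 2` there are a simple graph `G` and a vertex `v` such that `G` is countably
categorical and autostable, while the expansion `(G, v)` by one constant is countably categorical,
has a constructivization, has dimension `n` and is not effectively infinite. -/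
theorem result : ∀ n : ℕ, 2 ≤ n → ∃ (V : Type) (G : SimpleGraph V) (v : V),
    CountCat G ∧ dim G = 1 ∧ CountCatC G v ∧ (∃ ν : ℕ → V, IsConstrC G v ν) ∧
      dimC G v = n ∧ ¬ EffInfC G v := by
  intro n hn
  obtain ⟨K, rfl⟩ : ∃ K, n = K + 2 := ⟨n - 2, by omega⟩
  obtain ⟨v, h⟩ := mainC K
  exact ⟨_, HK K, v, h⟩

end Pool.Agent.Results.MP_dc233e_lc.ConstDim
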