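import Pool.Agent.P.MP_dc233e_lc.Dg.G

/-!
Countably categorical graphs of every finite computable dimension.
-/

namespace Pool.Agent.Results.MP_dc233e_lc.GraphDim

open Pool.Agent.P.MP_dc233e_lc.Dg

/-- For every `n ≥ 2` there is a countably categorical simple graph that has a
constructivization, is not autostable (its dimension is not `1`, in fact it is `n`) and is not
effectively infinite. -/
theorem result : ∀ n : ℕ, 2 ≤ n → ∃ (V : Type) (G : SimpleGraph V),
    CountCat G ∧ (∃ ν : ℕ → V, IsConstr G ν) ∧ dim G ≠ 1 ∧ ¬ EffInf G ∧ dim G = n := by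
  intro n hn
  obtain ⟨K, rfl⟩ : ∃ K, n = K + 2 := ⟨n - 2, by omega⟩
  obtain ⟨h1, h2, h3, h4⟩ := main K
  refine ⟨_, GK K, h1, h2, ?_, h3, h4⟩
  rw [h4]
  exact fun e => absurd (by exact_mod_cast e : K + 2 = 1) (by omega)

end Pool.Agent.Results.MP_dc233e_lc.GraphDim
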